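import Pool.Agent.Lib.MP_acf82c_lc.Br.MainG

/-!
# The Alpern-Asic inequality for networks with many bridges

Let `c` be the limit of the values of the clovers divided by their length (it exists and does not
depend on the speed bound `w`). Then `c < 4/5`, and on every network of length `μ` whose bridges have
total length `β > (2 c - 1) μ`, in particular if `β ≥ (3/5) μ`, the value is at least `c μ`, for
every starting point.
-/

namespace Pool.Agent.Results.MP_acf82c_lc.ManyBridges

open MPacf82c
open scoped NNReal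

theorem result : ∃ c : ℝ, c < 4 / 5 ∧
    (∀ ε : ℝ, 0 < ε → ∃ n₀ : ℕ, ∀ n : ℕ, n₀ ≤ n →
      ∀ (Q : Type) [MetricSpace Q] (N : Network Q) (O : Q), IsClover N O n →
      ∀ w : ℝ≥0, 1 ≤ w →
        HiderGuarantees w O (ENNReal.ofReal ((c - ε) * n)) ∧
        SearcherGuarantees w O (ENNReal.ofReal ((c + ε) * n))) ∧
    (∀ (Q : Type) [MetricSpace Q] (N : Network Q) (O : Q),
      (2 * c - 1) * N.length < N.bridgeLength → ∀ w : ℝ≥0, 1 ≤ w →
        HiderGuarantees w O (ENNReal.ofReal (c * N.length))) := by
  obtain ⟨c, -, -, h2, h3, h4, -⟩ := Br.bridgesG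
  exact ⟨c, h2, h3, h4⟩

end Pool.Agent.Results.MP_acf82c_lc.ManyBridges
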