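import Pool.Agent.Lib.MP_acf82c_lc.Br.MainM

/-!
# The Alpern-Asic inequality for networks of small diameter, up to an arbitrarily small constant

The values of the clovers divided by their length converge to a number `c > 0.627` which does not
depend on the speed bound `w`.  For every `ε > 0` the value of every network of length `μ`, whose
bridges have total length `β`, is at least `(c - ε) (μ + β)`, for every starting point, if the
diameter is small compared with `μ`.
-/

namespace Pool.Agent.Results.MP_acf82c_lc.SmallDiameter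

open MPacf82c
open scoped NNReal

theorem result : ∃ c : ℝ, 627 / 1000 < c ∧
    (∀ ε : ℝ, 0 < ε → ∃ n₀ : ℕ, ∀ n : ℕ, n₀ ≤ n →
      ∀ (Q : Type) [MetricSpace Q] (N : Network Q) (O : Q), IsClover N O n →
      ∀ w : ℝ≥0, 1 ≤ w →
        HiderGuarantees w O (ENNReal.ofReal ((c - ε) * n)) ∧
        SearcherGuarantees w O (ENNReal.ofReal ((c + ε) * n))) ∧
    (∀ ε : ℝ, 0 < ε → ∃ δ : ℝ, 0 < δ ∧ ∀ (Q : Type) [MetricSpace Q] (N : Network Q) (O : Q),
      (∀ x y : Q, dist x y ≤ δ * N.length) → ∀ w : ℝ≥0, 1 ≤ w →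
      HiderGuarantees w O (ENNReal.ofReal ((c - ε) * (N.length + N.bridgeLength)))) := by
  obtain ⟨c, h1, -, h3, -, h4⟩ := Br.bridgesM
  exact ⟨c, h1, h3, h4⟩

end Pool.Agent.Results.MP_acf82c_lc.SmallDiameter
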