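import Pool.Agent.Lib.MP_acf82c_lc.S.Main

/-!
# Stability of the Alpern-Asic inequality for small networks

Let `c` be the limit of the values of the clovers divided by their length (it exists and does not
depend on the speed bound `w`). For every `g > 0` there are `δ, η > 0` such that on every network
of length `μ` and diameter at most `δ μ` which has no centre, the value is at least `(c + η) μ`,
for every starting point. No centre: for every point `p` the pairs of points which can be joined
by a path of length at most `δ μ` avoiding `p` have measure at least `g μ²`.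
-/

namespace Pool.Agent.Results.MP_acf82c_lc.Stability

open MPacf82c MPacf82c.St
open scoped NNReal

theorem result : ∃ c : ℝ, 1 / 2 ≤ c ∧
    (∀ ε : ℝ, 0 < ε → ∃ n₀ : ℕ, ∀ n : ℕ, n₀ ≤ n →
      ∀ (Q : Type) [MetricSpace Q] (N : Network Q) (O : Q), IsClover N O n →
      ∀ w : ℝ≥0, 1 ≤ w →
        HiderGuarantees w O (ENNReal.ofReal ((c - ε) * n)) ∧
        SearcherGuarantees w O (ENNReal.ofReal ((c + ε) * n))) ∧
    (∀ g : ℝ, 0 < g → ∃ δ : ℝ, 0 < δ ∧ ∃ η : ℝ, 0 < η ∧
      ∀ (Q : Type) [MetricSpace Q] (N : Network Q) (O : Q),
      (∀ x y : Q, dist x y ≤ δ * N.length) → NoCentre N (δ * N.length) g →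
      ∀ w : ℝ≥0, 1 ≤ w → HiderGuarantees w O (ENNReal.ofReal ((c + η) * N.length))) :=
  stability

end Pool.Agent.Results.MP_acf82c_lc.Stability
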