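import Pool.Agent.Lib.MP_acf82c_lc.U.Univ

/-!
# A bound above one half of the length for every network

For every network `Q` of length `μ` and diameter `d μ`, every starting point and every speed bound
`w ≥ 1`, the hider guarantees `c μ` for every `c ≤ 0.501`, every `c ≤ d` and every
`c < 1/2 + (1 - d)^4/48 - (1 - d)^5/160`. (The bound `1/2` is given by an immobile hider at a
uniformly distributed point.)
-/

namespace Pool.Agent.Results.MP_acf82c_lc.UniversalBound

open MPacf82c
open scoped NNReal

theorem result (Q : Type) [MetricSpace Q] (N : Network Q) (O : Q) (w : ℝ≥0) (hw : 1 ≤ w)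
    (c d : ℝ) (hd : d = Metric.diam (Set.univ : Set Q) / N.length)
    (hc : c ≤ 501 / 1000 ∨ c ≤ d ∨ c < 1 / 2 + (1 - d) ^ 4 / 48 - (1 - d) ^ 5 / 160) :
    HiderGuarantees w O (ENNReal.ofReal (c * N.length)) :=
  UB.main N O hw hd hc

end Pool.Agent.Results.MP_acf82c_lc.UniversalBound
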